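import Pool.Agent.MP_f65396_co.h15l.Spec

/-! The core with a short outer part and blocked vertices: statements. -/

set_option autoImplicit false

namespace Pool.Agent.MP_f65396_co.h15m

open Finset
open Pool.Agent.MP_f65396_co.h15o (Ori2S)
open Pool.Agent.MP_f65396_co.h15l (sg' pcost)

/-- The ordered complement graph; the colour at `p` leaves `τ p` edges to the outer part, which
occupies the vertices `S p`. -/
structure H4 (N n c s D B m t : ℕ) (h : ℕ → ℕ → Prop) [DecidableRel h] (ω bf τ : ℕ → ℕ)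
    (S : ℕ → Finset ℕ) : Prop where
  hs : ∀ u v, h u v → h v u
  hi : ∀ u, ¬ h u u
  hN : N = n + c
  hc : 2 ≤ c
  hcD : c + t ≤ D
  hsD : s + t ≤ D
  hB : 20 * D ≤ B
  hm : m = 150 * B
  hn : 500 * B ≤ n
  hn' : n < 500 * B + 500
  hD : ∀ x, s ≤ x → x < N → ((range N).filter (h x)).card ≤ D
  hsum : ∑ x ∈ range N, ((range N).filter (h x)).card + n * (n + 1) ≤
    N * (N - 1) + 2 * ∑ x ∈ range N, τ x
  par : ∀ i < s, h i (ω i)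
  wr : ∀ i < s, N - m - (3 * B + 2 * D) ≤ ω i ∧ ω i < N - m - (3 * B + 2 * D) + B
  wi : ∀ i < s, ∀ k < s, ω i = ω k → i = k
  f2 : ∀ p, bf p ≤ p - (N - m - (3 * B + 2 * D)) ∧ bf p ≤ 2 * B + 2 * D
  f3 : ∀ p, bf p ≤ bf (p + 1) ∧ bf (p + 1) ≤ bf p + 1
  f4 : ∀ p, N - m ≤ p → bf p = 2 * B + 2 * D
  fw : ∀ i < s, bf (ω i) = sg' N s c t h ω S i
  t1 : ∀ p, τ p ≤ p + 1 + t - N
  t2 : ∀ p, τ (p + 1) ≤ τ p + 1
  sS : ∀ p, ∀ q ∈ S p, N - t ≤ p ∧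
    (q < s + c ∨ (309 * B ≤ q ∧ q < 346 * B) ∨ (m ≤ q ∧ q < 2 * m) ∨ p < q)
  cS : ∀ p, c + (S p).card ≤ D
  bot : ∀ j, s ≤ j → j < c → h j (N - m + j)
  top : ∀ j, m - 3 * D ≤ j → j < m →
    pcost N m h S j + 2 ≤ c + τ (N - m + j) + (m - 1 - j)

/-- Two stars for every colour, leaving room for the outer part on `S p`. An exceptional vertex is
a centre only in the colour of its partner; below the top pairs only first stars and the stars of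
exceptional vertices have exceptional leaves. -/
def Out4 (N c s D m : ℕ) (h : ℕ → ℕ → Prop) (ω τ : ℕ → ℕ) (S : ℕ → Finset ℕ) : Prop :=
  ∃ (x z : ℕ → ℕ) (A L : ℕ → Finset ℕ),
  (∀ p, c ≤ p → p < N → x p < N ∧ z p < N) ∧
  (∀ p, c ≤ p → p < N → ∀ y ∈ A p, y < N ∧ y ≠ x p ∧ ¬ h (x p) y) ∧
  (∀ p, c ≤ p → p < N → ∀ y ∈ L p, y < N ∧ y ≠ z p ∧ ¬ h (z p) y ∧ z p ≠ x p ∧ z p ∉ A p ∧
    y ≠ x p ∧ y ∉ A p) ∧
  (∀ p, c ≤ p → p < N → (A p).card + (L p).card + τ p + c = p + 1) ∧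
  (∀ p, c ≤ p → p + 1 < N → (A p).card ≤ (A (p + 1)).card ∧ (L p).card ≤ (L (p + 1)).card) ∧
  (∀ p, c ≤ p → p < N → ∀ q, c ≤ q → q < N → ∀ y ∈ A p, ∀ w ∈ A q,
    s(x p, y) = s(x q, w) → p = q) ∧
  (∀ p, c ≤ p → p < N → ∀ q, c ≤ q → q < N → ∀ y ∈ A p, ∀ w ∈ L q, s(x p, y) ≠ s(z q, w)) ∧
  (∀ p, c ≤ p → p < N → ∀ q, c ≤ q → q < N → ∀ y ∈ L p, ∀ w ∈ L q,
    s(z p, y) = s(z q, w) → p = q) ∧
  (∀ p, c ≤ p → p < N → ∀ q ∈ S p, q ≠ x p ∧ q ≠ z p ∧ q ∉ A p ∧ q ∉ L p) ∧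
  (∀ p, c ≤ p → p < N → s ≤ x p ∧ (s ≤ p → x p = p) ∧ (p < s → ∀ y ∈ A p, m ≤ y) ∧
    (N - m + s ≤ p → z p = p - (N - m))) ∧
  ∀ p, c ≤ p → p < N → ∀ y ∈ L p,
    (z p < s → p = ω (z p)) ∧ (y < s → z p < s ∨ N - 3 * D ≤ p)

/-- The core. -/
def Core4S : Prop := ∀ (N n c s D B m t : ℕ) (h : ℕ → ℕ → Prop) [DecidableRel h]
    (ω bf τ : ℕ → ℕ) (S : ℕ → Finset ℕ), H4 N n c s D B m t h ω bf τ S → Out4 N c s D m h ω τ S

end Pool.Agent.MP_f65396_co.h15m
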