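import Pool.Agent.MP_f65396_co.h15m.Cor2

/-! The allowed targets of the first stars and the degree estimates in the main case. -/

set_option autoImplicit false

namespace Pool.Agent.MP_f65396_co.h15m

open Finset
open Pool.Agent.MP_f65396_co.h15 (nat)
open Pool.Agent.MP_f65396_co.h15o (HZ Pad zcase)

/-- `u v` is an edge of a second star with centre `u`. -/
def sec (N : ℕ) (z : ℕ → ℕ) (L : ℕ → Finset ℕ) (u v : ℕ) : Prop := ∃ p < N, z p = u ∧ v ∈ L p

/-- `y` is a vertex of the second or third star of the colour of `x`. -/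
def blk (P : ℕ) (z : ℕ → ℕ) (S L : ℕ → Finset ℕ) (x y : ℕ) : Prop :=
  P ≤ x ∧ (y = z x ∨ y ∈ L x ∨ y ∈ S x)

open Classical in
/-- The allowed leaves of the first star at `x`. -/
noncomputable def alw (N P : ℕ) (h : ℕ → ℕ → Prop) (z : ℕ → ℕ) (S L : ℕ → Finset ℕ) (x : ℕ) :
    Finset ℕ :=
  (range N).filter fun y => y ≠ x ∧ ¬ h x y ∧ ¬ sec N z L x y ∧ ¬ sec N z L y x ∧ ¬ blk P z S L x y

variable {N n c s D B m t : ℕ} {h : ℕ → ℕ → Prop} [DecidableRel h] {ω bf τ z : ℕ → ℕ}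
  {S L : ℕ → Finset ℕ}

omit [DecidableRel h] in
lemma mem_alw {P x y : ℕ} : y ∈ alw N P h z S L x ↔ y < N ∧ y ≠ x ∧ ¬ h x y ∧
    ¬ sec N z L x y ∧ ¬ sec N z L y x ∧ ¬ blk P z S L x y := by
  classical
  unfold alw
  simp only [mem_filter, mem_range]

lemma mem_nat {al : ℕ → Finset ℕ} {x y : ℕ} : y ∈ nat al x ↔ y ∈ al x ∧ (y < x ∨ x ∉ al y) := by
  unfold nat
  rw [mem_filter]

lemma nat_cases (H : H4 N n c s D B m t h ω bf τ S) {P x y : ℕ} (hx : x < N)
    (hy : y ∈ nat (alw N P h z S L) x) : y < x ∨ (x < y ∧ blk P z S L y x) := by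
  obtain ⟨y1, y2⟩ := mem_nat.1 hy
  obtain ⟨a1, a2, a3, a4, a5, a6⟩ := mem_alw.1 y1
  by_cases e : y < x
  · exact Or.inl e
  refine Or.inr ⟨by omega, ?_⟩
  by_contra k
  exact y2.resolve_left e (mem_alw.2 ⟨hx, a2.symm, fun t => a3 (H.hs _ _ t), a5, a4, k⟩)

lemma card_ctr (H : H4 N n c s D B m t h ω bf τ S) (Z : HZ N c s D B m ω z) (x : ℕ) :
    ((range N).filter (fun y => N - m - (3 * B + 2 * D) ≤ y ∧ x = z y)).card ≤ 1 := by
  refine card_le_one.2 fun a ha b hb => ?_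
  obtain ⟨a1, a2, a3⟩ := mem_filter.1 ha
  obtain ⟨b1, b2, b3⟩ := mem_filter.1 hb
  exact z_inj H Z (mem_range.1 a1) (mem_range.1 b1) (Or.inr a2) (Or.inr b2) (a3.symm.trans b3)

lemma chk_K (H : H4 N n c s D B m t h ω bf τ S) (Z : HZ N c s D B m ω z) (G : HL N c s D B m h ω bf z S L)
    {x : ℕ} (hs : s ≤ x) (hx : x < N) :
    ((range N).filter (fun y => ¬ (y ∈ alw N (N - m - (3 * B + 2 * D)) h z S L x ∧
      x ∈ alw N (N - m - (3 * B + 2 * D)) h z S L y))).card ≤ 14 * B := by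
  classical
  have := H.hc
  have := H.hcD
  have := H.hsD
  have := H.hB
  obtain ⟨R, s1, s2⟩ : ∃ R : Finset ℕ, R.card ≤ 2 * B + 2 * D ∧ ∀ y, sec N z L x y → y ∈ R := by
    by_cases e : ∃ y, sec N z L x y
    · obtain ⟨y, p, p1, p2, p3⟩ := e
      refine ⟨L p, L_b5 H G p1, fun y' ⟨q, q1, q2, q3⟩ => ?_⟩
      rwa [zL_inj H Z G p1 q1 p3 q3 (p2.trans q2.symm)]
    · exact ⟨∅, by simp, fun y hy => absurd ⟨y, hy⟩ e⟩
  set P := (range N).filter (fun p => x ∈ L p) with hP
  set Y := (range N).filter (fun y => N - m - (3 * B + 2 * D) ≤ y ∧ x = z y) with hY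
  have s0 : (range N).filter (fun y => ¬ (y ∈ alw N (N - m - (3 * B + 2 * D)) h z S L x ∧
      x ∈ alw N (N - m - (3 * B + 2 * D)) h z S L y)) ⊆
      insert x (insert (z x) (((range N).filter (h x) ∪ R) ∪
        ((P.image z ∪ L x) ∪ (Y ∪ (P ∪ (S x ∪ Ico (N - t) N)))))) := by
    intro y hy
    obtain ⟨y1, y2⟩ := mem_filter.1 hy
    by_contra k
    simp only [mem_insert, mem_union, not_or] at k
    obtain ⟨k1, k2, ⟨k3, k4⟩, ⟨k5, k6⟩, k7, k8, k9, k0⟩ := k
    have b1 : ¬ h x y := fun t => k3 (mem_filter.2 ⟨y1, t⟩)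
    have b2 : ¬ sec N z L x y := fun t => k4 (s2 y t)
    have b3 : ¬ sec N z L y x := fun ⟨p, p1, p2, p3⟩ =>
      k5 (mem_image.2 ⟨p, mem_filter.2 ⟨mem_range.2 p1, p3⟩, p2⟩)
    refine y2 ⟨mem_alw.2 ⟨mem_range.1 y1, k1, b1, b2, b3, ?_⟩,
      mem_alw.2 ⟨hx, Ne.symm k1, fun t => b1 (H.hs _ _ t), b3, b2, ?_⟩⟩
    · rintro ⟨-, r | r | r⟩
      · exact k2 r
      · exact k6 r
      · exact k9 r
    · rintro ⟨t0, r | r | r⟩
      · exact k7 (mem_filter.2 ⟨y1, t0, r⟩)
      · exact k8 (mem_filter.2 ⟨y1, r⟩)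
      · exact k0 (mem_Ico.2 ⟨(H.sS y x r).1, mem_range.1 y1⟩)
  have b3 : Y.card ≤ 1 := card_ctr H Z _
  have b5 := H.cS x
  have b6 := card_union_le (S x) (Ico (N - t) N)
  rw [Nat.card_Ico] at b6
  have b4 : P.card ≤ 4 * B + 7 * D := L_count H G hs hx
  have a1 := (card_le_card s0).trans ((card_insert_le _ _).trans (Nat.succ_le_succ
    ((card_insert_le _ _).trans (Nat.succ_le_succ ((card_union_le _ _).trans (Nat.add_le_add
      ((card_union_le _ _).trans (Nat.add_le_add (H.hD x hs hx) s1))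
      ((card_union_le _ _).trans (Nat.add_le_add
        ((card_union_le _ _).trans (Nat.add_le_add (card_image_le.trans b4) (L_b5 H G hx)))
        ((card_union_le _ _).trans (Nat.add_le_add b3 ((card_union_le _ _).trans
          (Nat.add_le_add b4 b6))))))))))))
  omega

lemma chk_X (H : H4 N n c s D B m t h ω bf τ S) (Z : HZ N c s D B m ω z) (G : HL N c s D B m h ω bf z S L)
    {x : ℕ} (hx : x < s) : nat (alw N (N - m - (3 * B + 2 * D)) h z S L) x = ∅ := by
  have := H.hN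
  have := H.hc
  have := H.hcD
  have := H.hsD
  have := H.hB
  have := H.hm
  have := H.hn
  have r := Z.wr x hx
  refine eq_empty_of_forall_notMem fun y hy => ?_
  obtain ⟨a1, a2, a3, a4, a5, a6⟩ := mem_alw.1 (mem_nat.1 hy).1
  have sx : ¬ PreX N c s h ω S x y := fun t => a4 ⟨ω x, by omega, Z.zw x hx, G.prex x hx y t⟩
  rcases nat_cases H (by omega) hy with e | ⟨e, e0, e1 | e1 | e1⟩
  · exact sx (Or.inl ⟨e, a3⟩)
  · have e3 := z_inj H Z (p := ω x) (q := y) (by omega) a1 (Or.inr r.1) (Or.inr e0)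
      ((Z.zw x hx).trans e1)
    exact a3 (e3 ▸ H.par x hx)
  · rcases G.mem y a1 x e1 with ⟨j, h1, hj, rfl, t | t | t | ⟨-, i, hi, t, -⟩ | r'⟩ |
      ⟨i, hi, rfl, t | t | ⟨k, -, hk, t, -⟩ | r⟩ | ⟨t, -⟩
    · omega
    · omega
    · exact a3 t.2.2.2.1
    · have := Z.wr i hi
      omega
    · have := (H.sS x j r'.2.2.1).1
      omega
    · exact sx (Or.inr (Or.inr (Or.inl ⟨i, t.1, hi, rfl, fun u => t.2 (H.hs _ _ u), a3⟩)))
    · omega
    · have := Z.wr k hk
      omega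
    · have := (H.sS x i r.2.1).1
      omega
    · omega
  · exact sx (Or.inr (Or.inr (Or.inr ⟨a1, e1, a3⟩)))

lemma chk_Q (H : H4 N n c s D B m t h ω bf τ S) (Z : HZ N c s D B m ω z) (G : HL N c s D B m h ω bf z S L)
    {x : ℕ} (hs : s ≤ x) (hx : x < m) :
    (nat (alw N (N - m - (3 * B + 2 * D)) h z S L) x).card ≤
      (if x < s + c then 0 else s) + (x - B - s) + (if x < c then 0 else 1) +
        (S (N - m + x)).card := by
  have := H.hN
  have := H.hc
  have := H.hcD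
  have := H.hsD
  have := H.hB
  have := H.hm
  have := H.hn
  have s0 : nat (alw N (N - m - (3 * B + 2 * D)) h z S L) x ⊆
      (((if x < s + c then ∅ else range s) ∪ Ico s (x - B)) ∪
        if x < c then ∅ else {N - m + x}) ∪ S (N - m + x) := by
    intro y hy
    by_cases yS : y ∈ S (N - m + x)
    · exact mem_union_right _ yS
    refine mem_union_left _ ?_
    obtain ⟨a1, a2, a3, a4, a5, a6⟩ := mem_alw.1 (mem_nat.1 hy).1
    have sx : ¬ Pre N c s D B m h ω S x y := fun t =>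
      a4 ⟨N - m + x, by omega, Z.zu x hs, G.pre x hs hx y t⟩
    rcases nat_cases H (by omega) hy with e | ⟨e, e0, e1 | e1 | e1⟩
    · refine mem_union_left _ ?_
      by_cases k : y < s
      · refine mem_union_left _ ?_
        have r := Z.wr y k
        rw [if_neg fun t => a5 ⟨ω y, by omega, Z.zw y k, G.prex y k x
          (Or.inr (Or.inl ⟨hs, t, fun u => a3 (H.hs _ _ u)⟩))⟩]
        exact mem_range.2 k
      · refine mem_union_right _ (mem_Ico.2 ⟨by omega, ?_⟩)
        by_contra k'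
        exact sx (Or.inl ⟨by omega, e, by omega, fun t => a3 (H.hs _ _ t)⟩)
    · have e3 := z_inj H Z (p := N - m + x) (q := y) (by omega) a1 (Or.inr (by omega))
        (Or.inr e0) ((Z.zu x hs).trans e1)
      refine mem_union_right _ ?_
      rw [if_neg fun t => a3 (e3 ▸ H.bot x hs t)]
      exact mem_singleton.2 e3.symm
    · exfalso
      rcases G.mem y a1 x e1 with ⟨j, h1, hj, rfl, t | t | t | ⟨-, i, hi, t, -⟩ | r'⟩ |
        ⟨i, hi, rfl, t | t | ⟨k, -, hk, t, -⟩ | r⟩ | ⟨t, -⟩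
      · refine sx (Or.inr (Or.inl ⟨by omega, by omega, a1, ?_, a3, yS⟩))
        rw [Nat.add_sub_cancel_left]
        exact t.2.2.2
      · omega
      · exact a3 t.2.2.2.1
      · have := Z.wr i hi
        omega
      · have := (H.sS x j r'.2.2.1).1
        omega
      · omega
      · exact sx (Or.inr (Or.inr (Or.inr (Or.inl ⟨t.2.1, i, hi, rfl, t.2.2, a3⟩))))
      · have := Z.wr k hk
        omega
      · have := (H.sS x i r.2.1).1
        omega
      · omega
    · have := H.sS y x e1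
      exact (sx (Or.inr (Or.inr (Or.inr (Or.inr ⟨by omega, a1, e1, a3⟩))))).elim
  refine (card_le_card s0).trans ((card_union_le _ _).trans (Nat.add_le_add_right
    ((card_union_le _ _).trans (Nat.add_le_add
    ((card_union_le _ _).trans (Nat.add_le_add ?_ ?_)) ?_)) _))
  · split_ifs <;> simp
  · rw [Nat.card_Ico]
  · split_ifs <;> simp

lemma chk_D (H : H4 N n c s D B m t h ω bf τ S) (Z : HZ N c s D B m ω z) (G : HL N c s D B m h ω bf z S L)
    {x : ℕ} (hm : m ≤ x) (hx : x < N) :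
    (nat (alw N (N - m - (3 * B + 2 * D)) h z S L) x).card ≤ x + 1 + t := by
  set P := (range N).filter (fun p => x ∈ L p) with hP
  set Y := (range N).filter (fun y => N - m - (3 * B + 2 * D) ≤ y ∧ x = z y) with hY
  have s0 : nat (alw N (N - m - (3 * B + 2 * D)) h z S L) x ⊆
      (range x \ P.image z) ∪ (Y ∪ (P ∪ Ico (N - t) N)) := by
    intro y hy
    obtain ⟨a1, a2, a3, a4, a5, a6⟩ := mem_alw.1 (mem_nat.1 hy).1
    rcases nat_cases H hx hy with e | ⟨e, e0, e1 | e1 | e1⟩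
    · refine mem_union_left _ (mem_sdiff.2 ⟨mem_range.2 e, fun t => a5 ?_⟩)
      obtain ⟨p, p1, p2⟩ := mem_image.1 t
      exact ⟨p, mem_range.1 (mem_filter.1 p1).1, p2, (mem_filter.1 p1).2⟩
    · exact mem_union_right _ (mem_union_left _ (mem_filter.2 ⟨mem_range.2 a1, e0, e1⟩))
    · exact mem_union_right _ (mem_union_right _ (mem_union_left _
        (mem_filter.2 ⟨mem_range.2 a1, e1⟩)))
    · exact mem_union_right _ (mem_union_right _ (mem_union_right _
        (mem_Ico.2 ⟨(H.sS y x e1).1, a1⟩)))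
  have s2 : P.image z ⊆ range x := by
    intro y hy
    obtain ⟨p, p1, rfl⟩ := mem_image.1 hy
    exact mem_range.2 ((L_basic H Z G (mem_range.1 (mem_filter.1 p1).1)
      (mem_filter.1 p1).2).2.2.2.2 hm)
  have s3 : (P.image z).card = P.card := by
    refine card_image_of_injOn fun p hp q hq e => ?_
    obtain ⟨p1, p2⟩ := mem_filter.1 hp
    obtain ⟨q1, q2⟩ := mem_filter.1 hq
    exact zL_inj H Z G (mem_range.1 p1) (mem_range.1 q1) p2 q2 e
  have a1 := card_le_card s0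
  have a2 := card_union_le (range x \ P.image z) (Y ∪ (P ∪ Ico (N - t) N))
  have a3 := card_union_le Y (P ∪ Ico (N - t) N)
  have a6 := card_union_le P (Ico (N - t) N)
  rw [Nat.card_Ico] at a6
  have a4 : Y.card ≤ 1 := card_ctr H Z _
  have a5 := card_sdiff_add_card_eq_card s2
  rw [card_range] at a5
  omega

end Pool.Agent.MP_f65396_co.h15m
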