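import Pool.Agent.MP_f65396_co.h15m.Cor3
import Pool.Agent.MP_f65396_co.h15.Core3

/-! The top vertices, the total count and the two stars of every colour in the main case. -/

set_option autoImplicit false

namespace Pool.Agent.MP_f65396_co.h15m

open Finset
open Pool.Agent.MP_f65396_co.h15 (nat sum_flip_le gauss)
open Pool.Agent.MP_f65396_co.h15o (HZ Pad zcase Ori2S)
open Pool.Agent.MP_f65396_co.h15l (pcost)

variable {N n c s D B m t : ℕ} {h : ℕ → ℕ → Prop} [DecidableRel h] {ω bf τ z : ℕ → ℕ}
  {S L : ℕ → Finset ℕ}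

lemma chk_P (H : H4 N n c s D B m t h ω bf τ S) (Z : HZ N c s D B m ω z) (G : HL N c s D B m h ω bf z S L)
    {j : ℕ} (hs : s ≤ j) (hj : j < m) :
    N - m + j + 1 ≤ (nat (alw N (N - m - (3 * B + 2 * D)) h z S L) (N - m + j)).card + c +
      (2 * B + 2 * D) + τ (N - m + j) := by
  have := H.hN
  have := H.hc
  have := H.hcD
  have := H.hsD
  have := H.hB
  have := H.hm
  have := H.hn
  have hx : N - m + j < N := by omega
  have key : ∀ y < N - m + j,
      y ∈ nat (alw N (N - m - (3 * B + 2 * D)) h z S L) (N - m + j) ∨ y = j ∨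
      y ∈ L (N - m + j) ∨ y ∈ S (N - m + j) ∨ h (N - m + j) y ∨ (∃ p < N, N - m + j < p ∧
        h (N - m + j) p ∧ z p = y) := by
    intro y hy
    by_contra k
    simp only [not_or] at k
    obtain ⟨k1, k2, k3, k6, k4, k5⟩ := k
    refine k1 (mem_nat.2 ⟨mem_alw.2 ⟨by omega, by omega, k4, ?_, ?_, ?_⟩, Or.inl hy⟩)
    · rintro ⟨p, p1, p2, p3⟩
      have a := L_act H G p1 p3
      have := z_lt H Z p1 (by omega)
      omega
    · rintro ⟨p, p1, p2, p3⟩
      rcases G.mem p p1 _ p3 with ⟨i, h1, hi, rfl, t | t | t | ⟨-, k, hk, t, -⟩ | r'⟩ |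
        ⟨i, hi, rfl, t | t | ⟨k, -, hk, t, -⟩ | r⟩ | ⟨-, t, -⟩
      · omega
      · rw [Z.zu i h1] at p2
        rw [Nat.add_sub_cancel_left] at t
        exact k3 (G.pre j hs hj y (Or.inl ⟨by omega, by omega, by omega, p2 ▸ t.2.2.2.1⟩))
      · exact k5 ⟨_, p1, t.2.1, t.2.2.2.1, p2⟩
      · have := Z.wr k hk
        omega
      · rw [Z.zu i h1] at p2
        exact k6 (p2 ▸ r'.2.2.1)
      · omega
      · omega
      · have := Z.wr k hk
        omega
      · rw [Z.zw i hi] at p2
        exact k6 (p2 ▸ r.2.1)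
      · omega
    · rintro ⟨-, r | r | r⟩
      · rw [Z.zu j hs] at r
        exact k2 r
      · exact k3 r
      · exact k6 r
  have b1 := L_b5 H G hx
  by_cases e : j < m - 3 * D
  · set U := (Ioc (N - m + j) (N - m + j + 3 * D)).filter
      (fun v => ¬ h j (v - (N - m)) ∧ ¬ h j v) with hU
    have u1 : U ⊆ L (N - m + j) := by
      intro v hv
      obtain ⟨v1, v2⟩ := mem_filter.1 hv
      rw [mem_Ioc] at v1
      exact G.pre j hs hj v (Or.inr (Or.inl ⟨v1.1, by omega, by omega, v2.1, v2.2, fun r => by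
        have := (H.sS _ v r).1
        omega⟩))
    have u2 : Ioc (N - m + j) (N - m + j + 3 * D) ⊆ U ∪ ((range N).filter (h j) ∪
        ((range N).filter (h j)).image (fun i => N - m + i)) := by
      intro v hv
      have v1 := mem_Ioc.1 hv
      by_cases t1 : h j v
      · exact mem_union_right _ (mem_union_left _ (mem_filter.2 ⟨mem_range.2 (by omega), t1⟩))
      by_cases t2 : h j (v - (N - m))
      · exact mem_union_right _ (mem_union_right _ (mem_image.2 ⟨v - (N - m),
          mem_filter.2 ⟨mem_range.2 (by omega), t2⟩, by omega⟩))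
      · exact mem_union_left _ (mem_filter.2 ⟨hv, t2, t1⟩)
    have s0 : range (N - m + j) ⊆ insert j
        (nat (alw N (N - m - (3 * B + 2 * D)) h z S L) (N - m + j) ∪
        ((L (N - m + j) \ U) ∪ ((range N).filter (h (N - m + j))).image
          (fun p => if p < N - m + j then p else z p))) := by
      intro y hy
      rw [mem_range] at hy
      simp only [mem_insert, mem_union]
      rcases key y hy with t | t | t | r | t | ⟨p, p1, p2, p3, p4⟩
      · exact Or.inr (Or.inl t)
      · exact Or.inl t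
      · refine Or.inr (Or.inr (Or.inl (mem_sdiff.2 ⟨t, fun k => ?_⟩)))
        have := mem_Ioc.1 (mem_filter.1 k).1
        omega
      · have := (H.sS _ y r).1
        omega
      · exact Or.inr (Or.inr (Or.inr (mem_image.2 ⟨y, mem_filter.2 ⟨mem_range.2 (by omega), t⟩,
          if_pos hy⟩)))
      · exact Or.inr (Or.inr (Or.inr (mem_image.2 ⟨p, mem_filter.2 ⟨mem_range.2 p1, p3⟩,
          (if_neg (by omega)).trans p4⟩)))
    have a1 := (card_le_card s0).trans ((card_insert_le _ _).trans (Nat.succ_le_succ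
      ((card_union_le _ _).trans (Nat.add_le_add_left ((card_union_le _ _).trans
        (Nat.add_le_add_left (card_image_le.trans (H.hD _ (by omega) hx)) _)) _))))
    have a2 := (card_le_card u2).trans ((card_union_le _ _).trans (Nat.add_le_add_left
      ((card_union_le _ _).trans (Nat.add_le_add (H.hD j hs (by omega))
        (card_image_le.trans (H.hD j hs (by omega))))) _))
    have a3 := card_sdiff_add_card_eq_card u1
    rw [card_range] at a1
    rw [Nat.card_Ioc] at a2
    omega
  · set U := (Ioo (N - m + j) N).filter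
      (fun v => ¬ h j (v - (N - m)) ∧ ¬ h j v ∧ v ∉ S (N - m + j)) with hU
    set C := (range N).filter (fun x => h (N - m + j) x ∧ h j x) ∪ S (N - m + j) with hC
    have u1 : U ⊆ L (N - m + j) := by
      intro v hv
      obtain ⟨v1, v2⟩ := mem_filter.1 hv
      rw [mem_Ioo] at v1
      exact G.pre j hs hj v (Or.inr (Or.inl ⟨v1.1, by omega, v1.2, v2⟩))
    have u2 : Ioo (N - m + j) N ⊆ (U ∪ ((Ioo (N - m + j) N).filter (h j) ∪
        ((Ioo j m).filter (h j)).image (fun i => N - m + i))) ∪
        C.filter (fun x => ¬ x < N - m + j) := by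
      intro v hv
      have v1 := mem_Ioo.1 hv
      by_cases t0 : v ∈ S (N - m + j)
      · exact mem_union_right _ (mem_filter.2 ⟨mem_union_right _ t0, by omega⟩)
      refine mem_union_left _ ?_
      by_cases t1 : h j v
      · exact mem_union_right _ (mem_union_left _ (mem_filter.2 ⟨hv, t1⟩))
      by_cases t2 : h j (v - (N - m))
      · exact mem_union_right _ (mem_union_right _ (mem_image.2 ⟨v - (N - m),
          mem_filter.2 ⟨mem_Ioo.2 (by omega), t2⟩, by omega⟩))
      · exact mem_union_left _ (mem_filter.2 ⟨hv, t2, t1, t0⟩)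
    have s0 : range (N - m + j) ⊆ insert j
        (nat (alw N (N - m - (3 * B + 2 * D)) h z S L) (N - m + j) ∪
        ((L (N - m + j) \ U) ∪
          (C.filter (fun x => x < N - m + j) ∪
          ((Ioo j m).filter (h (N - m + j)) ∪
            ((Ioo (N - m + j) N).filter (h (N - m + j))).image z)))) := by
      intro y hy
      have hy' := mem_range.1 hy
      have nu : y ∉ U := fun k => by
        have := mem_Ioo.1 (mem_filter.1 k).1
        omega
      by_contra k
      simp only [mem_insert, mem_union, not_or] at k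
      obtain ⟨k1, k2, k3, k0, k6, k7⟩ := k
      have k4 : y ∉ (range N).filter (fun x => h (N - m + j) x ∧ h j x) := fun u =>
        k0 (mem_filter.2 ⟨mem_union_left _ u, hy'⟩)
      have k5 : y ∉ S (N - m + j) := fun u => k0 (mem_filter.2 ⟨mem_union_right _ u, hy'⟩)
      rcases key y hy' with r | r | r | r | r | ⟨p, p1, p2, p3, p4⟩
      · exact k2 r
      · exact k1 r
      · exact k3 (mem_sdiff.2 ⟨r, nu⟩)
      · exact k5 r
      · refine k3 (mem_sdiff.2 ⟨G.pre j hs hj y (Or.inr (Or.inr (Or.inl
          ⟨by omega, hy', fun u => ?_, H.hs _ _ r, fun u => ?_, k5⟩))), nu⟩)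
        · exact k6 (mem_filter.2 ⟨mem_Ioo.2 (by omega), r⟩)
        · exact k4 (mem_filter.2 ⟨mem_range.2 (by omega), r, H.hs _ _ u⟩)
      · exact k7 (mem_image.2 ⟨p, mem_filter.2 ⟨mem_Ioo.2 ⟨p2, p1⟩, p3⟩, p4⟩)
    have a1 := (card_le_card s0).trans ((card_insert_le _ _).trans (Nat.succ_le_succ
      ((card_union_le _ _).trans (Nat.add_le_add_left ((card_union_le _ _).trans
        (Nat.add_le_add_left ((card_union_le _ _).trans (Nat.add_le_add_left
          ((card_union_le _ _).trans (Nat.add_le_add_left card_image_le _)) _)) _)) _))))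
    have a2 := (card_le_card u2).trans ((card_union_le _ _).trans (Nat.add_le_add_right
      ((card_union_le _ _).trans (Nat.add_le_add_left
      ((card_union_le _ _).trans (Nat.add_le_add_left card_image_le _)) _)) _))
    have a3 := card_sdiff_add_card_eq_card u1
    have a4 := H.top j (by omega) hj
    have a5 := card_filter_add_card_filter_not (s := C) (fun x => x < N - m + j)
    unfold pcost at a4
    rw [← hC] at a4
    rw [card_range] at a1
    rw [Nat.card_Ioo] at a2
    omega

lemma chk_tot (H : H4 N n c s D B m t h ω bf τ S) (Z : HZ N c s D B m ω z) (G : HL N c s D B m h ω bf z S L) :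
    ∑ x ∈ range N, (x + 1 - c - (L x).card - τ x) ≤
      ∑ x ∈ range N, (nat (alw N (N - m - (3 * B + 2 * D)) h z S L) x).card := by
  classical
  have := H.hN
  have := H.hc
  have := H.hcD
  have := H.hsD
  have := H.hB
  have := H.hm
  have := H.hn
  set R : ℕ → Finset ℕ := fun x => (range N).filter (fun y => sec N z L y x) with hR
  have nb : ∀ x < N, ∀ y < N, ¬ h x y → blk (N - m - (3 * B + 2 * D)) z S L x y →
      blk (N - m - (3 * B + 2 * D)) z S L y x → False := by
    rintro x hx y hy k ⟨a1, b1⟩ ⟨a2, b2⟩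
    have zx := z_lt H Z hx (Or.inr a1)
    have zy := z_lt H Z hy (Or.inr a2)
    have w : ∀ x < N, ∀ y < N, ¬ h x y → N - m - (3 * B + 2 * D) ≤ x →
        N - m - (3 * B + 2 * D) ≤ y → y ∈ S x → x ∈ L y ∨ x ∈ S y → False := by
      intro x hx y hy k a1 a2 r1 r2
      have c1 := H.sS x y r1
      rcases r2 with r2 | r2
      · rcases L_hi H Z G hy r2 a1 k with e | e | ⟨i, j, e1, e2, e3, e4⟩
        · omega
        · omega
        · have := Z.wr j e2
          omega
      · have c2 := H.sS y x r2
        omega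
    rcases b1.resolve_left (by omega) with r1 | r1
    · rcases b2.resolve_left (by omega) with r2 | r2
      · exact L_both H Z G hx hy k a1 a2 r1 r2
      · exact w y hy x hx (fun u => k (H.hs _ _ u)) a2 a1 r2 (Or.inl r1)
    · exact w x hx y hy k a1 a2 r1 (b2.resolve_left (by omega))
  generalize N - m - (3 * B + 2 * D) = P at nb ⊢
  have t1 : ∀ x ∈ range N, N - 1 ≤ ((range N).filter (h x)).card +
      (((nat (alw N P h z S L) x).card +
        ((range N).filter (fun y => x ∈ nat (alw N P h z S L) y)).card) +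
      ((R x).card + ((range N).filter (fun y => x ∈ R y)).card)) := by
    intro x hx
    have hx' := mem_range.1 hx
    have s0 : (range N).erase x ⊆ (range N).filter (h x) ∪
        ((nat (alw N P h z S L) x ∪ (range N).filter (fun y => x ∈ nat (alw N P h z S L) y)) ∪
        (R x ∪ (range N).filter (fun y => x ∈ R y))) := by
      intro y hy
      obtain ⟨y1, y2⟩ := mem_erase.1 hy
      have hy' := mem_range.1 y2
      by_contra k
      simp only [mem_union, not_or] at k
      obtain ⟨k1, ⟨k2, k3⟩, k4, k5⟩ := k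
      have b1 : ¬ h x y := fun t => k1 (mem_filter.2 ⟨y2, t⟩)
      have b2 : ¬ sec N z L y x := fun t => k4 (mem_filter.2 ⟨y2, t⟩)
      have b3 : ¬ sec N z L x y := fun t => k5 (mem_filter.2 ⟨y2, mem_filter.2 ⟨hx, t⟩⟩)
      have c1 : ¬ blk P z S L x y → y ∈ alw N P h z S L x := fun t =>
        mem_alw.2 ⟨hy', y1, b1, b3, b2, t⟩
      have c2 : ¬ blk P z S L y x → x ∈ alw N P h z S L y := fun t =>
        mem_alw.2 ⟨hx', y1.symm, fun u => b1 (H.hs _ _ u), b2, b3, t⟩
      have k3' : x ∉ nat (alw N P h z S L) y := fun t => k3 (mem_filter.2 ⟨y2, t⟩)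
      rw [mem_nat] at k2 k3'
      by_cases d1 : y ∈ alw N P h z S L x
      · by_cases d2 : x ∈ alw N P h z S L y
        · rcases lt_or_gt_of_ne y1 with u | u
          · exact k2 ⟨d1, Or.inl u⟩
          · exact k3' ⟨d2, Or.inl u⟩
        · exact k2 ⟨d1, Or.inr d2⟩
      · exact k3' ⟨c2 fun u => d1 (c1 fun u' => nb x hx' y hy' b1 u' u), Or.inr d1⟩
    have a1 := (card_le_card s0).trans ((card_union_le _ _).trans (Nat.add_le_add_left
      ((card_union_le _ _).trans (Nat.add_le_add (card_union_le _ _) (card_union_le _ _))) _))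
    rwa [card_erase_of_mem hx, card_range] at a1
  have t2 := sum_le_sum t1
  simp only [sum_add_distrib, sum_const, card_range, smul_eq_mul] at t2
  have t3 := sum_flip_le N (nat (alw N P h z S L))
  have t4 := sum_flip_le N R
  have t5 : ∑ x ∈ range N, (R x).card ≤ ∑ x ∈ range N, (L x).card := by
    refine le_trans (sum_le_sum fun x _ => ?_) (sum_flip_le N L)
    refine le_trans (card_le_card fun y hy => ?_) (card_image_le (f := z))
    obtain ⟨p, p1, p2, p3⟩ := (mem_filter.1 hy).2
    exact mem_image.2 ⟨p, mem_filter.2 ⟨mem_range.2 p1, p3⟩, p2⟩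
  have t6 : ∑ x ∈ range N, (x + 1 - c - (L x).card - τ x) +
      ∑ x ∈ range N, (L x).card + ∑ x ∈ range N, τ x =
      ∑ x ∈ range N, (x + 1 - c) := by
    rw [← sum_add_distrib, ← sum_add_distrib]
    refine sum_congr rfl fun x hx => ?_
    have hx' := mem_range.1 hx
    have := H.t1 x
    by_cases e : x < s
    · have := G.b1 x e
      omega
    · have := L_b2 H G (not_lt.1 e) hx'
      omega
  have t7 := gauss c (by omega) n
  have t8 := H.hsum
  rw [← H.hN] at t7
  omega

theorem stars (ori : Ori2S) (H : H4 N n c s D B m t h ω bf τ S) (Z : HZ N c s D B m ω z)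
    (G : HL N c s D B m h ω bf z S L) : ∃ A : ℕ → Finset ℕ,
    (∀ x < N, A x ⊆ alw N (N - m - (3 * B + 2 * D)) h z S L x ∧
      (A x).card = x + 1 - c - (L x).card - τ x) ∧ ∀ x < N, ∀ y < N, y ∈ A x → x ∉ A y := by
  have hN := H.hN
  have hc := H.hc
  have hcD := H.hcD
  have hsD := H.hsD
  have hB := H.hB
  have hm := H.hm
  have hn := H.hn
  have hn' := H.hn'
  have S0 : ∀ x, x < m - t → (S (N - m + x)).card = 0 := fun x hx =>
    card_eq_zero.2 (eq_empty_of_forall_notMem fun q r => by
      have := (H.sS _ q r).1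
      omega)
  refine ori N s m (m - s) (B + s) (B - D) (14 * B) (3 * B)
    ((c + t) * N + (3 * B + 3 * D) * (2 * B + 2 * D))
    (alw N (N - m - (3 * B + 2 * D)) h z S L) (fun x => x + 1 - c - (L x).card - τ x)
    (fun x => c + t + (L x).card + τ x)
    (fun x _ y hy => ⟨(mem_alw.1 hy).1, (mem_alw.1 hy).2.1⟩) (fun x h1 hx => chk_K H Z G h1 hx)
    (fun x hx => ?_) (chk_tot H Z G) (fun x hx => ?_) (fun x h1 hx => ?_) (fun x h1 hx => ?_)
    (fun x h1 hx => ?_) ?_ (fun x _ => by omega) (by omega) (by omega) (by omega) (Or.inl ?_)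
  · have := G.b1 x hx
    omega
  · by_cases e : x < s
    · rw [chk_X H Z G e]
      exact Nat.zero_le _
    · have e1 := chk_Q H Z G (not_lt.1 e) hx
      have e2 := L_b2 H G (p := x) (by omega) (by omega)
      have e3 := H.t1 x
      have e4 := H.cS (N - m + x)
      have e5 := S0 x
      split_ifs at e1 <;> omega
  · have e1 := chk_Q H Z G (x := x) (by omega) hx
    have e2 := L_b2 H G (p := x) (by omega) (by omega)
    have e3 := H.t1 x
    have e4 := H.cS (N - m + x)
    split_ifs at e1 <;> omega
  · have e1 := chk_P H Z G (j := x - (N - m)) (by omega) (by omega)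
    have e2 := (G.b2 x (by omega) hx).trans (H.f4 x (by omega))
    rw [show N - m + (x - (N - m)) = x by omega] at e1
    omega
  · have e1 := chk_D H Z G h1 hx
    have e2 := L_b2 H G (p := x) (by omega) hx
    have e3 := L_b5 H G hx
    have e4 := H.t1 x
    omega
  · rw [sum_congr rfl (g := fun x => c + t + (L x).card) fun x hx => by
      have := mem_Ico.1 hx
      have := H.t1 x
      omega, sum_add_distrib, sum_const, smul_eq_mul, Nat.card_Ico, mul_comm]
    refine Nat.add_le_add (Nat.mul_le_mul_left _ (by omega)) ?_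
    rw [← sum_filter_ne_zero]
    refine (sum_le_card_nsmul _ _ (2 * B + 2 * D) fun x hx => ?_).trans
      (Nat.mul_le_mul_right _ ?_)
    · have := mem_Ico.1 (mem_filter.1 hx).1
      exact L_b5 H G (by omega)
    · refine (card_le_card (t := Ico (N - m - (3 * B + 2 * D)) (N - (m - s)))
        fun x hx => ?_).trans ?_
      · obtain ⟨x1, x2⟩ := mem_filter.1 hx
        rw [mem_Ico] at x1 ⊢
        have := L_b2 H G (p := x) (by omega) (by omega)
        omega
      · rw [Nat.card_Ico]
        omega
  · have e1 : (20 * (c + t)) * N ≤ B * (514 * B) := Nat.mul_le_mul (by omega) (by omega)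
    have e2 : (20 * (3 * B + 3 * D)) * (2 * B + 2 * D) ≤ (63 * B) * (3 * B) :=
      Nat.mul_le_mul (by omega) (by omega)
    have e3 : (19 * B) * B ≤ (20 * (B - D)) * B := Nat.mul_le_mul_right _ (by omega)
    have e4 : (B - D) * (B + s + 14 * B + 3 * B) ≤ (B - D) * (19 * B) :=
      Nat.mul_le_mul_left _ (by omega)
    rw [hm]
    generalize B - D = E at e3 e4 ⊢
    generalize E * (B + s + 14 * B + 3 * B) = X at e4 ⊢
    generalize hY : (3 * B + 3 * D) * (2 * B + 2 * D) = Y
    rw [mul_assoc 20, hY] at e2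
    generalize c + t = W at e1 ⊢
    nlinarith

theorem core1 (ori : Ori2S) (H : H4 N n c s D B m t h ω bf τ S) : Out4 N c s D m h ω τ S := by
  obtain ⟨z, Z⟩ := exists_Z H
  obtain ⟨L, G⟩ := exists_L H Z
  obtain ⟨A, a1, a2⟩ := stars ori H Z G
  have hN := H.hN
  have hc := H.hc
  have hcD := H.hcD
  have hsD := H.hsD
  have hB := H.hB
  have hm := H.hm
  have hn := H.hn
  have am : ∀ p < N, ∀ y ∈ A p, _ := fun p hp y hy => mem_alw.1 ((a1 p hp).1 hy)
  have AA : ∀ p < N, ∀ q < N, ∀ y ∈ A p, ∀ w ∈ A q, s(p, y) = s(q, w) → p = q := by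
    intro p hp q hq y hy w hw e
    rcases Sym2.eq_iff.1 e with ⟨e1, -⟩ | ⟨e1, e2⟩
    · exact e1
    · exact absurd (e1 ▸ hw) (a2 p hp q hq (e2 ▸ hy))
  have AL : ∀ p < N, ∀ q < N, ∀ y ∈ A p, ∀ w ∈ L q, s(p, y) ≠ s(z q, w) := by
    intro p hp q hq y hy w hw e
    obtain ⟨-, -, -, b1, b2, -⟩ := am p hp y hy
    rcases Sym2.eq_iff.1 e with ⟨e1, e2⟩ | ⟨e1, e2⟩
    · exact b1 ⟨q, hq, e1.symm, e2 ▸ hw⟩
    · exact b2 ⟨q, hq, e2.symm, e1 ▸ hw⟩
  have LL : ∀ p < N, ∀ q < N, ∀ y ∈ L p, ∀ w ∈ L q, s(z p, y) = s(z q, w) → p = q := by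
    intro p hp q hq y hy w hw e
    rcases Sym2.eq_iff.1 e with ⟨e1, -⟩ | ⟨e1, e2⟩
    · exact zL_inj H Z G hp hq hy hw e1
    · exact (L_anti H Z G hp hq (e2 ▸ hy) (e1 ▸ hw)).elim
  refine ⟨fun p => if p < s then z p else p,
    fun p => if N - m - (3 * B + 2 * D) ≤ p then z p else 0,
    fun p => if p < s then L p else A p, fun p => if p < s then ∅ else L p,
    fun p _ hp => ⟨?_, ?_⟩, fun p _ hp y hy => ?_, fun p _ hp y hy => ?_,
    fun p h1 hp => ?_, fun p h1 hp => ?_, fun p _ hp q _ hq y hy w hw => ?_,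
    fun p _ hp q _ hq y hy w hw => ?_, fun p _ hp q _ hq y hy w hw => ?_,
    fun p _ hp q hq => ?_, fun p h1 hp => ⟨?_, fun e => if_neg (not_lt.2 e), fun e y hy => ?_,
      fun e => ?_⟩, fun p _ hp y hy => ?_⟩
  · beta_reduce
    split_ifs with e
    · have := Z.zs p e
      omega
    · exact hp
  · beta_reduce
    split_ifs with e
    · have := z_lt H Z hp (Or.inr e)
      omega
    · omega
  · by_cases e : p < s
    · simp only [if_pos e] at hy ⊢
      obtain ⟨b1, b2, b3, -⟩ := L_basic H Z G hp hy
      exact ⟨b1, b2, b3⟩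
    · simp only [if_neg e] at hy ⊢
      exact ⟨(am p hp y hy).1, (am p hp y hy).2.1, (am p hp y hy).2.2.1⟩
  · by_cases e : p < s
    · simp only [if_pos e] at hy
      exact absurd hy (notMem_empty _)
    · simp only [if_neg e] at hy ⊢
      obtain ⟨b1, b2, b3, b4, -⟩ := L_basic H Z G hp hy
      have b5 : N - m - (3 * B + 2 * D) ≤ p := by
        have := L_act H G hp hy
        omega
      have b6 := z_lt H Z hp (Or.inr b5)
      rw [if_pos b5]
      exact ⟨b1, b2, b3, by omega, fun r => (am p hp _ r).2.2.2.2.2 ⟨b5, Or.inl rfl⟩, b4,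
        fun r => (am p hp _ r).2.2.2.2.2 ⟨b5, Or.inr (Or.inl hy)⟩⟩
  · have := H.t1 p
    by_cases e : p < s
    · simp only [if_pos e, card_empty]
      have := G.b1 p e
      omega
    · simp only [if_neg e]
      have e1 := (a1 p hp).2
      have e2 := L_b2 H G (not_lt.1 e) hp
      omega
  · have e1 := (a1 p (by omega)).2
    have e3 := (a1 (p + 1) hp).2
    have := H.t1 p
    have := H.t1 (p + 1)
    have := H.t2 p
    by_cases e : p < s
    · have e2 := G.b1 p e
      by_cases e' : p + 1 < s
      · simp only [if_pos e, if_pos e', card_empty]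
        have e4 := G.b1 _ e'
        omega
      · simp only [if_pos e, if_neg e', card_empty]
        have e4 := L_b2 H G (not_lt.1 e') hp
        omega
    · simp only [if_neg e, if_neg (show ¬ p + 1 < s by omega)]
      have e2 := H.f3 p
      have e4 := G.b2 p (by omega) (by omega)
      have e5 := G.b2 (p + 1) (by omega) hp
      have e6 := H.f4 p
      have e7 := H.f4 (p + 1)
      omega
  · by_cases e : p < s <;> by_cases e' : q < s
    · simp only [if_pos e, if_pos e'] at hy hw ⊢
      exact LL p hp q hq y hy w hw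
    · simp only [if_pos e, if_neg e'] at hy hw ⊢
      exact fun t => absurd t.symm (AL q hq p hp w hw y hy)
    · simp only [if_neg e, if_pos e'] at hy hw ⊢
      exact fun t => absurd t (AL p hp q hq y hy w hw)
    · simp only [if_neg e, if_neg e'] at hy hw ⊢
      exact AA p hp q hq y hy w hw
  · by_cases e' : q < s
    · simp only [if_pos e'] at hw
      exact absurd hw (notMem_empty _)
    simp only [if_neg e'] at hw
    have b5 : N - m - (3 * B + 2 * D) ≤ q := by
      have := L_act H G hq hw
      omega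
    by_cases e : p < s
    · simp only [if_pos e, if_pos b5] at hy ⊢
      intro t
      have := LL p hp q hq y hy w hw t
      omega
    · simp only [if_neg e, if_pos b5] at hy ⊢
      exact AL p hp q hq y hy w hw
  · by_cases e : p < s
    · simp only [if_pos e] at hy
      exact absurd hy (notMem_empty _)
    by_cases e' : q < s
    · simp only [if_pos e'] at hw
      exact absurd hw (notMem_empty _)
    simp only [if_neg e] at hy
    simp only [if_neg e'] at hw
    have b5 := L_act H G hp hy
    have b6 := L_act H G hq hw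
    simp only [if_pos (show N - m - (3 * B + 2 * D) ≤ p by omega),
      if_pos (show N - m - (3 * B + 2 * D) ≤ q by omega)]
    exact LL p hp q hq y hy w hw
  · have b1 := H.sS p q hq
    have b5 : N - m - (3 * B + 2 * D) ≤ p := by omega
    have b2 := Z.zu (p - (N - m)) (by omega)
    rw [show N - m + (p - (N - m)) = p by omega] at b2
    simp only [if_neg (show ¬ p < s by omega), if_pos b5]
    refine ⟨by omega, by omega, fun r => (am p hp _ r).2.2.2.2.2 ⟨b5, Or.inr (Or.inr hq)⟩,
      fun r => ?_⟩
    rcases G.mem p hp q r with ⟨j, -, -, rfl, e | e | e | e | e⟩ | ⟨i, hi, e, -⟩ | ⟨e, e', -⟩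
    · omega
    · exact e.2.2.2.2.2 hq
    · exact e.2.2.2.2.2 hq
    · omega
    · omega
    · have := Z.wr i hi
      omega
    · omega
  · beta_reduce
    split_ifs with e
    · have := Z.zs p e
      omega
    · omega
  · simp only [if_pos e] at hy
    rcases G.mem p hp y hy with ⟨j, -, -, r, -⟩ | ⟨i, hi, r, -⟩ | ⟨r, -⟩
    · omega
    · have := Z.wr i hi
      omega
    · omega
  · have b2 := Z.zu (p - (N - m)) (by omega)
    rw [show N - m + (p - (N - m)) = p by omega] at b2
    simp only [if_pos (show N - m - (3 * B + 2 * D) ≤ p by omega)]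
    exact b2
  · by_cases e : p < s
    · simp only [if_pos e] at hy
      exact absurd hy (notMem_empty _)
    simp only [if_neg e] at hy
    have b5 : N - m - (3 * B + 2 * D) ≤ p := by
      have := L_act H G hp hy
      omega
    simp only [if_pos b5]
    refine ⟨fun r => ?_, fun r => ?_⟩
    · rcases zcase Z (Or.inr b5) with u | ⟨i, hi, u, u'⟩ | u | u
      · omega
      · rw [u']
        exact u
      · omega
      · omega
    · rcases G.mem p hp y hy with ⟨j, -, -, rfl, u | u | u | ⟨-, k, hk, u, -⟩ | u⟩ |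
        ⟨i, hi, rfl, -⟩ | ⟨u, -⟩
      · omega
      · omega
      · omega
      · have := Z.wr k hk
        omega
      · have := (H.sS y j u.2.2.1).1
        omega
      · exact Or.inl ((Z.zw i hi).trans_lt hi)
      · omega

end Pool.Agent.MP_f65396_co.h15m
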