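import Pool.Agent.MP_f65396_co.h15m.Cor4
import Pool.Agent.MP_f65396_co.h15o.Ori2

/-! The core with a short outer part and blocked vertices. -/

set_option autoImplicit false

namespace Pool.Agent.MP_f65396_co.h15m

theorem core4 : Core4S := fun _ _ _ _ _ _ _ _ _ _ _ _ _ _ H => core1 h15o.ori2 H

end Pool.Agent.MP_f65396_co.h15m
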